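import Pool.Agent.Lib.Mor.Main
import Pool.Agent.Lib.Mor.Cor8
import Pool.Agent.Lib.Mor.SpHom

/-!
# MP_89f8a9_al: `p^* : H⁸(GL(6,ℤ);ℚ) → H⁸(Out F₆;ℚ)` is not zero

For every even `m ≥ 4` the map `H^{2m}(GL(m+2,ℤ);ℚ) → H^{2m}(Out F_{m+2};ℚ)` is not zero; it is
detected by the torus `x_i ↦ a^{s_i} x_i b^{t_i}`. For `m = 4`, with the one-dimensionality listed in
the problem, `p^*` is bijective in degree 8, and `i^* = 0` if `H⁸(Sp(6,ℤ);ℚ) = 0` (Hain).
-/

namespace Pool.Agent.Results.MP_89f8a9_al.MoritaTori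

open Pool.Agent.Lib.Mor Matrix

/-- `Out F_n`, the automorphisms of the free group on `n` generators modulo the inner ones -/
def Out (n : ℕ) : Type := OutF (Fin n)

instance (n : ℕ) : Group (Out n) :=
  QuotientGroup.Quotient.group (MulAut.conj (G := FreeGroup (Fin n))).range

/-- the class of an automorphism -/
def cl {n : ℕ} (φ : MulAut (FreeGroup (Fin n))) : Out n := (φ : OutF (Fin n))

/-- `p : Out F_n → GL(n, ℤ)`, the action on the abelianisation -/
def p (n : ℕ) : Out n →* GL (Fin n) ℤ := pO (ι := Fin n)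

/-- `f^* : Hᵏ(H; ℚ) → Hᵏ(G; ℚ)` is not zero -/
def NonzeroOn (k : ℕ) {G H : Type} [Group G] [Group H] (f : G →* H) : Prop := HQ f k ≠ 0

/-- `f^* : Hᵏ(H; ℚ) → Hᵏ(G; ℚ)` is zero -/
def ZeroOn (k : ℕ) {G H : Type} [Group G] [Group H] (f : G →* H) : Prop := HQ f k = 0

/-- `f^* : Hᵏ(H; ℚ) → Hᵏ(G; ℚ)` is bijective -/
def BijectiveOn (k : ℕ) {G H : Type} [Group G] [Group H] (f : G →* H) : Prop :=
  Function.Bijective (HQ f k)

/-- `Hᵏ(G; ℚ)` has dimension one -/
def OneDim (k : ℕ) (G : Type) [Group G] : Prop :=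
  Module.finrank ℚ (groupCohomology (Rep.trivial ℚ G ℚ) k) = 1

/-- `Hᵏ(G; ℚ) = 0` -/
def Vanishes (k : ℕ) (G : Type) [Group G] : Prop :=
  Subsingleton (groupCohomology (Rep.trivial ℚ G ℚ) k)

/-- the generator `a` of `F_{m+2}` -/
def ga (m : ℕ) : FreeGroup (Fin (m + 2)) := FreeGroup.of 0

/-- the generator `b` of `F_{m+2}` -/
def gb (m : ℕ) : FreeGroup (Fin (m + 2)) := FreeGroup.of 1

/-- the generators `x_i` of `F_{m+2}` -/
def gx {m : ℕ} (i : Fin m) : FreeGroup (Fin (m + 2)) := FreeGroup.of i.succ.succ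

/-- `φ` is the automorphism `a ↦ a`, `b ↦ b`, `x_i ↦ a^{s_i} x_i b^{u_i}` -/
def IsTwist {m : ℕ} (s u : Fin m → ℤ) (φ : MulAut (FreeGroup (Fin (m + 2)))) : Prop :=
  φ (ga m) = ga m ∧ φ (gb m) = gb m ∧ ∀ i, φ (gx i) = ga m ^ s i * gx i * gb m ^ u i

/-- the group `ℤ^m × ℤ^m`, written multiplicatively -/
def Tor (m : ℕ) : Type := Multiplicative ((Fin m → ℤ) × (Fin m → ℤ))

instance (m : ℕ) : CommGroup (Tor m) := Multiplicative.commGroup

/-- the element `(s, u)` of `ℤ^m × ℤ^m` -/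
def tv {m : ℕ} (s u : Fin m → ℤ) : Tor m := Multiplicative.ofAdd (s, u)

/-- `t(s, u)` is the class of `a ↦ a`, `b ↦ b`, `x_i ↦ a^{s_i} x_i b^{u_i}` -/
def IsTorus {m : ℕ} (t : Tor m →* Out (m + 2)) : Prop :=
  ∀ s u : Fin m → ℤ, ∃ φ : MulAut (FreeGroup (Fin (m + 2))), IsTwist s u φ ∧ t (tv s u) = cl φ

/-- `p ∘ i : M → GL(6, ℤ)` factors through the group `K` -/
def FactorsThrough (K : Type) [Group K] {M : Type} [Group M] (i : M →* Out 6) : Prop :=
  ∃ (a : M →* K) (b : K →* GL (Fin 6) ℤ), (p 6).comp i = b.comp a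

/-- some automorphism in the class maps `[x_0,x_3][x_1,x_4][x_2,x_5]`, the loop around the puncture,
to a conjugate of itself -/
def FixesLoop (g : Out 6) : Prop :=
  ∃ φ : MulAut (FreeGroup (Fin 6)), cl φ = g ∧ IsConj (φ zeta) zeta

/-- the exponents `(s, u)` as one vector -/
private def vec {m : ℕ} : (Fin m → ℤ) × (Fin m → ℤ) ≃+ (Fin (2 * m) → ℤ) where
  toFun w k := Fin.cases (motive := fun _ => Fin m → ℤ) w.1 (fun _ => w.2)
    (finProdFinEquiv.symm k).1 (finProdFinEquiv.symm k).2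
  invFun v := (fun i => v (finProdFinEquiv (0, i)), fun i => v (finProdFinEquiv (1, i)))
  left_inv w := by
    have h0 : ∀ i : Fin m, finProdFinEquiv.symm (finProdFinEquiv ((0 : Fin 2), i)) = (0, i) :=
      fun i => Equiv.symm_apply_apply _ _
    have h1 : ∀ i : Fin m, finProdFinEquiv.symm (finProdFinEquiv ((1 : Fin 2), i)) = (1, i) :=
      fun i => Equiv.symm_apply_apply _ _
    apply Prod.ext
    · funext i
      simp only [h0]
      rfl
    · funext i
      simp only [h1]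
      rfl
  right_inv v := by
    funext k
    obtain ⟨⟨a, b⟩, rfl⟩ := finProdFinEquiv.surjective k
    simp only [Equiv.symm_apply_apply]
    fin_cases a <;> rfl
  map_add' v w := by
    funext k
    simp only [Pi.add_apply]
    generalize (finProdFinEquiv.symm k).1 = a
    generalize (finProdFinEquiv.symm k).2 = b
    fin_cases a <;> rfl

private theorem vec_zero {m : ℕ} (w : (Fin m → ℤ) × (Fin m → ℤ)) (i : Fin m) :
    vec w (finProdFinEquiv (0, i)) = w.1 i := by
  have h := congrArg Prod.fst (vec.left_inv w)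
  exact congrFun h i

private theorem vec_one {m : ℕ} (w : (Fin m → ℤ) × (Fin m → ℤ)) (i : Fin m) :
    vec w (finProdFinEquiv (1, i)) = w.2 i := by
  have h := congrArg Prod.snd (vec.left_inv w)
  exact congrFun h i

private theorem torus (m : ℕ) (hm : Even m) (h4 : 4 ≤ m) :
    ∃ t : Tor m →* Out (m + 2), IsTorus t ∧
      NonzeroOn (2 * m) ((p (m + 2)).comp t) := by
  refine ⟨(legT m).comp (AddEquiv.toMultiplicative vec).toMonoidHom, ?_, ?_⟩
  · intro s u
    refine ⟨legA (vec (s, u)), ⟨?_, ?_, fun i => ?_⟩, rfl⟩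
    · show leg (vec (s, u)) (FreeGroup.of 0) = FreeGroup.of 0
      exact leg_zero_of _
    · show leg (vec (s, u)) (FreeGroup.of 1) = FreeGroup.of 1
      exact leg_one_of _
    · have h := leg_succ_of (vec (s, u)) i
      rw [vec_zero, vec_one] at h
      exact h
  · intro h
    apply main hm h4
    have h2 : (pO (ι := Fin (m + 2))).comp (legT m) =
        (((pO (ι := Fin (m + 2))).comp (legT m)).comp
          (AddEquiv.toMultiplicative (vec (m := m))).toMonoidHom).comp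
          (AddEquiv.toMultiplicative (vec (m := m))).symm.toMonoidHom := by
      ext x
      simp
    rw [h2, HQ_comp]
    have h3 : HQ (((pO (ι := Fin (m + 2))).comp (legT m)).comp
        (AddEquiv.toMultiplicative (vec (m := m))).toMonoidHom) (2 * m) = 0 := h
    rw [h3]
    exact CategoryTheory.Limits.zero_comp

theorem result :
    (∀ m : ℕ, Even m → 4 ≤ m →
      NonzeroOn (2 * m) (p (m + 2)) ∧
        ∃ t : Tor m →* Out (m + 2), IsTorus t ∧
          NonzeroOn (2 * m) ((p (m + 2)).comp t)) ∧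
    (OneDim 8 (GL (Fin 6) ℤ) → OneDim 8 (Out 6) →
      BijectiveOn 8 (p 6) ∧
      (∀ (M K : Type) [Group M] [Group K] (i : M →* Out 6),
        FactorsThrough K i → Vanishes 8 K → ZeroOn 8 i) ∧
      (Vanishes 8 (Matrix.symplecticGroup (Fin 3) ℤ) → ∀ (M : Type) [Group M] (i : M →* Out 6),
        (∀ g, FixesLoop (i g)) → ZeroOn 8 i)) := by
  have hA : ∀ m : ℕ, Even m → 4 ≤ m →
      NonzeroOn (2 * m) (p (m + 2)) ∧
        ∃ t : Tor m →* Out (m + 2), IsTorus t ∧
          NonzeroOn (2 * m) ((p (m + 2)).comp t) := by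
    intro m hm h4
    obtain ⟨t, ht, hn⟩ := torus m hm h4
    refine ⟨fun h => hn ?_, t, ht, hn⟩
    have h' : HQ (p (m + 2)) (2 * m) = 0 := h
    show HQ ((p (m + 2)).comp t) (2 * m) = 0
    rw [HQ_comp, h']
    exact CategoryTheory.Limits.zero_comp
  refine ⟨hA, fun h1 h2 => ?_⟩
  have hp : HQ (pO (ι := Fin 6)) 8 ≠ 0 := (hA 4 (by decide) le_rfl).1
  have hc := cor8 hp h1 h2
  refine ⟨hc.1, ?_, fun h3 M _ i h4 => ?_⟩
  · rintro M K _ _ i ⟨a, b, h3⟩ h4
    exact hc.2 M K i a b h3 h4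
  · obtain ⟨a, b, hab⟩ := surf_factor (M := M) i h4
    exact hc.2 M _ i a b hab h3

end Pool.Agent.Results.MP_89f8a9_al.MoritaTori
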